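import Pool.Agent.Lib.MP_31392c_an.Final

set_option autoImplicit false

/-- Capacity does not increase under the linear radial transformation for compact sets made of a
disc `|z| ≤ ρ` and a part in an annulus `R₁ ≤ |z| ≤ R₂` with `R₁ ≥ ρ` and
`R₂ - R₁ ≤ (e² - 1) ρ`. -/
theorem Pool.Agent.Results.MP_31392c_an.AnnulusCase.result (E : Set ℂ) (hE : IsCompact E)
    (ρ R₁ R₂ : ℝ) (hρ : 0 < ρ) (hρR : ρ ≤ R₁) (hR : R₂ ≤ R₁ + (Real.exp 2 - 1) * ρ)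
    (hsub : ∀ z ∈ E, ‖z‖ ≤ ρ ∨ (R₁ ≤ ‖z‖ ∧ ‖z‖ ≤ R₂)) :
    Pool.MP_31392c_an.tcap (Pool.MP_31392c_an.LR E) ≤
      Pool.MP_31392c_an.tcap (E ∪ Metric.closedBall 0 ρ) :=
  Pool.MP_31392c_an.annulus E hE hρ hρR hR hsub
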